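import Mathlib
import Pool.Agent.Helper10.Norm

/-!
# Classes of algebraic cycles on symmetric powers, and their numerical rank
-/

universe u v w

open CategoryTheory

namespace Pool.Agent.Helper59.ZO

open Pool.Agent.Helper10 SmProjVar

variable {k : Type u} [Field k] {K : Type v} [Field K]

/-- `f : X ^ (n + 1) ⟶ X ^ (n + 1)` permutes the factors. -/
def PermutesFactors (X : SmProjVar k) (n : ℕ)
    (f : (X.selfProd n).toOver ⟶ (X.selfProd n).toOver) : Prop :=
  ∃ σ : Equiv.Perm (Fin (n + 1)), ∀ j : Fin (n + 1), f ≫ X.projPow n j = X.projPow n (σ j)

/-- The class `u` in `H(X ^ (n + 1))` is invariant under the permutations of the factors. -/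
def SymInvariant (W : CohomologyData.{u, v, w} k K) (X : SmProjVar k) (n : ℕ)
    (u : W.H (X.selfProd n)) : Prop :=
  ∀ f, PermutesFactors X n f → W.pull f u = u

/-- The class `u` in `H(X ^ (n + 1))` is a combination of classes of algebraic cycles, and invariant
under the permutations of the factors. -/
def IsSymAlg (W : CohomologyData.{u, v, w} k K) (X : SmProjVar k) (n : ℕ)
    (u : W.H (X.selfProd n)) : Prop :=
  u ∈ W.algClasses (X.selfProd n) ∧ SymInvariant W X n u

/-- The class `u` in `H(X ^ (n + 1))` is orthogonal to all classes of algebraic cycles. -/
def IsOrth (W : CohomologyData.{u, v, w} k K) (X : SmProjVar k) (n : ℕ)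
    (u : W.H (X.selfProd n)) : Prop :=
  ∀ v ∈ W.algClasses (X.selfProd n), W.pairing (X.selfProd n) u v = 0

/-- The space of classes of algebraic cycles on the symmetric power `Sym ^ (n + 1) X`, i.e. the
`K`-span of the algebraic classes in `H(X ^ (n + 1))` which are invariant under the permutations of
the factors. -/
noncomputable def symClasses (W : CohomologyData.{u, v, w} k K) (X : SmProjVar k) (n : ℕ) :
    Submodule K (W.H (X.selfProd n)) :=
  Submodule.span K {u | IsSymAlg W X n u}

/-- The subspace of the numerically trivial classes in `symClasses W X n`. -/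
noncomputable def symTrivial (W : CohomologyData.{u, v, w} k K) (X : SmProjVar k) (n : ℕ) :
    Submodule K (W.H (X.selfProd n)) :=
  Submodule.span K {u | IsSymAlg W X n u ∧ IsOrth W X n u}

/-- The dimension over `K` of the space of classes of algebraic cycles on the symmetric power
`Sym ^ m X`, i.e. of the `K`-span of the algebraic classes in `H(X ^ m)` which are invariant under
the permutations of the factors. -/
noncomputable def homRank (W : CohomologyData.{u, v, w} k K) (X : SmProjVar k) : ℕ → ℕ
  | 0 => 1
  | n + 1 => Module.finrank K (symClasses W X n)

/-- The dimension over `K` of the same space modulo numerical equivalence, i.e. modulo the classes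
which are orthogonal to all classes of algebraic cycles on `X ^ m`. -/
noncomputable def numRank (W : CohomologyData.{u, v, w} k K) (X : SmProjVar k) : ℕ → ℕ
  | 0 => 1
  | n + 1 => Module.finrank K (symClasses W X n) - Module.finrank K (symTrivial W X n)

end Pool.Agent.Helper59.ZO
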