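import Mathlib
import Pool.Agent.Helper59.ZO.Defs
import Pool.Agent.Helper10.BaseChange

/-!
# A Weil cohomology theory as an auxiliary structure, and insertion of a class
-/

universe u v w t

open CategoryTheory TensorProduct

namespace Pool.Agent.Helper59.ZO

open Pool.Agent.Helper10 SmProjVar

variable {k : Type u} [Field k] {K : Type v} [Field K]

section Base

variable [CharZero K] (W : WeilCohomology.{u, v, w} k K)

/-- a Weil cohomology theory as an auxiliary structure, without extension of scalars -/
noncomputable def base : SPre.{u, v, w, v} k K K where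
  H := W.H
  ring X := inferInstance
  algebra X := inferInstance
  fin X := (W.graded X).finite
  ev X := W.evK X
  od X := W.odK X
  ev_sup_od X := (W.isCompl X).sup_eq_top
  ev_inf_od X := (W.isCompl X).disjoint
  ev_comm X x y hx := W.evK_comm X x y hx
  od_anti X x y hx hy := W.odK_anti X x y hx hy
  ev_mul_ev X x y hx hy := W.evK_mul_evK X x y hx hy
  ev_mul_od X x y hx hy := W.evK_mul_odK X x y hx hy
  od_mul_od X x y hx hy := W.odK_mul_odK X x y hx hy
  pull f := W.pullA f
  pull_id X := W.pullA_id X
  pull_comp f g := W.pullA_comp f g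
  pull_ev f x hx := W.pull_evK f x hx
  pull_od f x hx := W.pull_odK f x hx
  s _ X := RingEquiv.refl (W.H X)
  s_smul σ X a x := by
    have h : σ a = a := σ.commutes a
    rw [h]
    rfl
  s_pull _ _ _ f x := rfl
  s_ev _ X x hx := hx
  s_od _ X x hx := hx
  tr X := W.trL X
  tr_od X x hx := W.odK_induction X (p := fun y => W.trL X y = 0)
    (fun i hi y hy => W.tr_eq_zero_of_gr X (by rintro rfl; exact hi (even_two_mul _)) hy)
    (map_zero _) (fun a b ha hb => by rw [map_add, ha, hb, add_zero]) hx
  tr_s σ X x := (σ.commutes _).symm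
  nondeg X x h := (W.trace X).nondegenerate x h
  span_ext X Y := by
    rw [eq_top_iff]
    intro z _
    obtain ⟨t, rfl⟩ := (W.kunneth X Y (LinearMap.mul' K _ ∘ₗ TensorProduct.map
      (W.pullA (fst X Y)).toLinearMap (W.pullA (snd X Y)).toLinearMap) (fun a b => rfl)).2 z
    induction t using TensorProduct.induction_on with
    | zero => rw [map_zero]; exact Submodule.zero_mem _
    | tmul x y => exact Submodule.subset_span ⟨x, y, rfl⟩
    | add a b ha hb => rw [map_add]; exact Submodule.add_mem _ (ha trivial) (hb trivial)
  tr_prod X Y x y := W.tr_prod X Y x y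
  alg X := W.algClasses X
  alg_le_ev X := W.algClasses_le_evK X
  one_mem X := W.one_mem_algClasses X
  mul_mem X x y hx hy := W.mul_mem_algClasses X x hx y hy
  pull_mem f x hx := W.pull_mem_algClasses f x hx
  push f a ha := W.push_mem_algClasses f a ha
  s_alg _ X x := Iff.rfl

end Base

/-- the projection `X ^ (n + 2) ⟶ X ^ (n + 1)` which forgets the coordinate number `i` -/
noncomputable def forget (X : SmProjVar k) (n i : ℕ) :
    (X.selfProd (n + 1)).toOver ⟶ (X.selfProd n).toOver :=
  SmProjVar.liftPow (fun j => X.projPow (n + 1) (if j < i then j else j + 1)) n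

variable {Ω : Type v} [Field Ω] {K' : Type t} [Field K'] [Algebra K' Ω]

/-- insertion of the class `z` in the class `u` on `X ^ (n + 1)`, in all possible ways -/
noncomputable def ins (P : SPre.{u, v, w, t} k K' Ω) (X : SmProjVar k) (n : ℕ) (z : P.H X)
    (u : P.H (X.selfProd n)) : P.H (X.selfProd (n + 1)) :=
  ∑ i ∈ Finset.range (n + 2), P.pull (X.projPow (n + 1) i) z * P.pull (forget X n i) u

end Pool.Agent.Helper59.ZO
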