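import Mathlib
import Pool.Agent.Helper59.ZO.Base

/-!
# Insertion and contraction
-/

universe u v w t

open CategoryTheory

namespace Pool.Agent.Helper59.ZO

open Pool.Agent.Helper10 SmProjVar SPre

section Pow

variable {k : Type u} [Field k] {X Z Z' : SmProjVar k}

lemma liftPow_congr {p q : ℕ → (Z.toOver ⟶ X.toOver)} (n : ℕ) (h : ∀ j ≤ n, p j = q j) :
    SmProjVar.liftPow p n = SmProjVar.liftPow q n := by
  induction n with
  | zero => exact h 0 le_rfl
  | succ n ih =>
    change lift (SmProjVar.liftPow p n) (p (n + 1)) = lift (SmProjVar.liftPow q n) (q (n + 1))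
    rw [ih (fun j hj => h j (by omega)), h (n + 1) le_rfl]

lemma comp_liftPow (g : Z'.toOver ⟶ Z.toOver) (p : ℕ → (Z.toOver ⟶ X.toOver)) (n : ℕ) :
    g ≫ SmProjVar.liftPow p n = SmProjVar.liftPow (fun j => g ≫ p j) n := by
  induction n with
  | zero => rfl
  | succ n ih =>
    change g ≫ lift (SmProjVar.liftPow p n) (p (n + 1)) =
      lift (SmProjVar.liftPow (fun j => g ≫ p j) n) (g ≫ p (n + 1))
    refine SmProjVar.hom_ext ?_ ?_
    · rw [Category.assoc, lift_fst, lift_fst, ih]
    · rw [Category.assoc, lift_snd, lift_snd]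

lemma projPow_last (X : SmProjVar k) (n : ℕ) :
    X.projPow (n + 1) (n + 1) = snd (X.selfProd n) X := by
  change (if n + 1 = n + 1 then snd (X.selfProd n) X
        else fst (X.selfProd n) X ≫ SmProjVar.projPow X n (n + 1)) = _
  rw [if_pos rfl]

lemma projPow_succ (X : SmProjVar k) (n j : ℕ) (hj : j ≤ n) :
    X.projPow (n + 1) j = fst (X.selfProd n) X ≫ X.projPow n j := by
  change (if j = n + 1 then snd (X.selfProd n) X
        else fst (X.selfProd n) X ≫ SmProjVar.projPow X n j) = _
  rw [if_neg (by omega)]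

lemma liftPow_id (X : SmProjVar k) (n : ℕ) :
    SmProjVar.liftPow (X.projPow n) n = 𝟙 (X.selfProd n).toOver := by
  induction n with
  | zero => rfl
  | succ n ih =>
    have h1 : SmProjVar.liftPow (X.projPow (n + 1)) n = fst (X.selfProd n) X := by
      have h2 : SmProjVar.liftPow (X.projPow (n + 1)) n =
          fst (X.selfProd n) X ≫ SmProjVar.liftPow (X.projPow n) n := by
        rw [comp_liftPow]
        exact liftPow_congr n fun j hj => projPow_succ X n j hj
      rw [h2, ih]
      exact Category.comp_id _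
    change lift (SmProjVar.liftPow (X.projPow (n + 1)) n) (X.projPow (n + 1) (n + 1)) = _
    rw [h1, projPow_last]
    refine SmProjVar.hom_ext ?_ ?_
    · rw [lift_fst]
      exact (Category.id_comp _).symm
    · rw [lift_snd]
      exact (Category.id_comp _).symm

/-- forgetting the last coordinate -/
lemma forget_last (X : SmProjVar k) (n : ℕ) : forget X n (n + 1) = fst (X.selfProd n) X := by
  have h : forget X n (n + 1) =
      fst (X.selfProd n) X ≫ SmProjVar.liftPow (X.projPow n) n := by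
    rw [comp_liftPow]
    refine liftPow_congr n fun j hj => ?_
    rw [if_pos (by omega), projPow_succ X n j hj]
  rw [h, liftPow_id]
  exact Category.comp_id _

/-- forgetting another coordinate -/
lemma forget_succ (X : SmProjVar k) (n i : ℕ) (hi : i ≤ n + 1) :
    forget X (n + 1) i =
      lift (fst (X.selfProd (n + 1)) X ≫ forget X n i) (snd (X.selfProd (n + 1)) X) := by
  have h1 : SmProjVar.liftPow (fun j => X.projPow (n + 1 + 1) (if j < i then j else j + 1)) n =
      fst (X.selfProd (n + 1)) X ≫ forget X n i := by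
    unfold forget
    rw [comp_liftPow]
    refine liftPow_congr n fun j hj => ?_
    split_ifs with h
    · exact projPow_succ X (n + 1) j (by omega)
    · exact projPow_succ X (n + 1) (j + 1) (by omega)
  have h2 : X.projPow (n + 1 + 1) (if n + 1 < i then n + 1 else n + 1 + 1) =
      snd (X.selfProd (n + 1)) X := by
    rw [if_neg (by omega), projPow_last]
  exact congrArg₂ (fun a b => lift a b) h1 h2

end Pow

variable {k : Type u} [Field k] {Ω : Type v} [Field Ω] {K : Type t} [Field K] [Algebra K Ω]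
  (P : SPre.{u, v, w, t} k K Ω)

/-- projection formula -/
lemma contr_fst_mul {A C : SmProjVar k} (c : P.H C) {a : P.H A} (ha : a ∈ P.ev A)
    (R : P.H (A.prod C)) :
    P.contr A C c (P.pull (fst A C) a * R) = a * P.contr A C c R := by
  refine eq_of_tr fun y => ?_
  have e1 : P.pull (fst A C) a * R * P.pull (snd A C) c * P.pull (fst A C) y =
      R * P.pull (snd A C) c * P.pull (fst A C) (y * a) := by
    have e2 : P.pull (fst A C) a * (R * P.pull (snd A C) c * P.pull (fst A C) y) =
        R * P.pull (snd A C) c * P.pull (fst A C) y * P.pull (fst A C) a :=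
      P.ev_comm _ _ _ (P.pull_ev _ _ ha)
    rw [map_mul (P.pull _), ← mul_assoc (R * P.pull (snd A C) c), ← e2]
    noncomm_ring
  have e3 : a * P.contr A C c R * y = P.contr A C c R * (y * a) := by
    rw [mul_assoc, P.ev_comm _ _ _ ha, mul_assoc]
  rw [e3, contr_apply, contr_apply, tr_pushF, tr_pushF, e1]

/-- contraction commutes with pull-back on the other factor -/
lemma contr_pull {A A' C : SmProjVar k} (c : P.H C) (g : A'.toOver ⟶ A.toOver)
    (R : P.H (A.prod C)) :
    P.contr A' C c (P.pull (lift (fst A' C ≫ g) (snd A' C)) R) =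
      P.pull g (P.contr A C c R) := by
  have hR : R ∈ Submodule.span Ω
      {z : P.H (A.prod C) | ∃ x y, z = P.pull (fst A C) x * P.pull (snd A C) y} := by
    rw [P.span_ext]; trivial
  induction hR using Submodule.span_induction with
  | mem R hR =>
    obtain ⟨a, b, rfl⟩ := hR
    have e1 : P.pull (lift (fst A' C ≫ g) (snd A' C))
        (P.pull (fst A C) a * P.pull (snd A C) b) = P.ext A' C (P.pull g a) b := by
      rw [map_mul (P.pull _), pull_pull, pull_pull, lift_fst, lift_snd, SPre.ext, pull_pull]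
    rw [e1, contr_ext]
    change _ = P.pull g (P.contr A C c (P.ext A C a b))
    rw [contr_ext, map_smul]
  | zero => simp only [map_zero]
  | add x y _ _ hx hy => simp only [map_add, hx, hy]
  | smul r x _ hx => simp only [map_smul, hx]

variable {X : SmProjVar k}

/-- contraction of the last factor -/
noncomputable def cl (x : P.H X) (n : ℕ) : P.H (X.selfProd (n + 1)) →ₗ[Ω] P.H (X.selfProd n) :=
  P.contr (X.selfProd n) X x

lemma cl_ins_zero {x z : P.H X} (hz : z ∈ P.ev X) (u : P.H X) :
    (cl P x 0 (ins P X 0 z u) : P.H X) = P.tr X (z * x) • u + P.tr X (u * x) • z := by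
  have h0 : (P.pull (X.projPow (0 + 1) 0) z * P.pull (forget X 0 0) u : P.H (X.selfProd (0 + 1))) =
      P.ext X X z u := by
    have e1 : X.projPow (0 + 1) 0 = fst X X :=
      (projPow_succ X 0 0 le_rfl).trans (Category.comp_id _)
    have e2 : forget X 0 0 = snd X X := projPow_last X 0
    exact congrArg₂ (fun f g => (P.pull (X := X.prod X) f z * P.pull (X := X.prod X) g u)) e1 e2
  have h1 : (P.pull (X.projPow (0 + 1) 1) z * P.pull (forget X 0 1) u : P.H (X.selfProd (0 + 1))) =
      P.ext X X u z := by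
    have e1 : X.projPow (0 + 1) 1 = snd X X := projPow_last X 0
    have e2 : forget X 0 1 = fst X X := forget_last X 0
    exact (congrArg₂ (fun f g => (P.pull (X := X.prod X) f z * P.pull (X := X.prod X) g u))
      e1 e2).trans (P.ev_comm _ _ _ (P.pull_ev _ _ hz))
  have h2 : (ins P X 0 z u : P.H (X.selfProd (0 + 1))) = P.ext X X z u + P.ext X X u z := by
    refine (Finset.sum_range_succ _ _).trans ?_
    refine congrArg₂ (fun a b => a + b) ?_ h1
    exact (Finset.sum_range_one _).trans h0
  have h3 : P.contr X X x (P.ext X X z u + P.ext X X u z) =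
      P.tr X (z * x) • u + P.tr X (u * x) • z := by
    rw [map_add, contr_ext, contr_ext, add_comm]
  exact (congrArg (fun R => P.contr X X x R) h2).trans h3

lemma cl_ins_succ {x z : P.H X} (hz : z ∈ P.ev X) (n : ℕ) (u : P.H (X.selfProd (n + 1))) :
    cl P x (n + 1) (ins P X (n + 1) z u) =
      P.tr X (z * x) • u + ins P X n z (cl P x n u) := by
  have h1 : cl P x (n + 1) (P.pull (X.projPow (n + 1 + 1) (n + 2)) z *
      P.pull (forget X (n + 1) (n + 2)) u) = P.tr X (z * x) • u := by
    have e1 : X.projPow (n + 1 + 1) (n + 2) = snd (X.selfProd (n + 1)) X := projPow_last X (n + 1)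
    have e2 : forget X (n + 1) (n + 2) = fst (X.selfProd (n + 1)) X := forget_last X (n + 1)
    have e3 : P.pull (snd (X.selfProd (n + 1)) X) z * P.pull (fst (X.selfProd (n + 1)) X) u =
        P.ext (X.selfProd (n + 1)) X u z := P.ev_comm _ _ _ (P.pull_ev _ _ hz)
    have e4 := (congrArg₂ (fun f g => (P.pull (X := (X.selfProd (n + 1)).prod X) f z *
      P.pull (X := (X.selfProd (n + 1)).prod X) g u)) e1 e2).trans e3
    exact (congrArg (fun R => P.contr (X.selfProd (n + 1)) X x R) e4).trans
      (contr_ext _ _ _ _ _)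
  have h2 : ∀ i ∈ Finset.range (n + 2), cl P x (n + 1) (P.pull (X.projPow (n + 1 + 1) i) z *
      P.pull (forget X (n + 1) i) u) =
      P.pull (X.projPow (n + 1) i) z * P.pull (forget X n i) (cl P x n u) := by
    intro i hi
    rw [Finset.mem_range] at hi
    have e1 := projPow_succ X (n + 1) i (by omega)
    have e2 := forget_succ X n i (by omega)
    have e3 : P.contr (X.selfProd (n + 1)) X x
        (P.pull (fst (X.selfProd (n + 1)) X ≫ X.projPow (n + 1) i) z *
        P.pull (lift (fst (X.selfProd (n + 1)) X ≫ forget X n i) (snd (X.selfProd (n + 1)) X)) u) =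
        P.pull (X.projPow (n + 1) i) z * P.pull (forget X n i) (P.contr (X.selfProd n) X x u) := by
      rw [← contr_pull P (A := X.selfProd n) (A' := X.selfProd (n + 1)) x (forget X n i) u,
        ← contr_fst_mul P (A := X.selfProd (n + 1)) x (P.pull_ev _ _ hz), pull_pull]
    exact (congrArg₂ (fun f g => P.contr (X.selfProd (n + 1)) X x
      (P.pull (X := (X.selfProd (n + 1)).prod X) f z *
      P.pull (X := (X.selfProd (n + 1)).prod X) g u)) e1 e2).trans e3
  have h3 : cl P x (n + 1) (ins P X (n + 1) z u) =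
      (∑ i ∈ Finset.range (n + 2), cl P x (n + 1) (P.pull (X.projPow (n + 1 + 1) i) z *
      P.pull (forget X (n + 1) i) u)) + cl P x (n + 1) (P.pull (X.projPow (n + 1 + 1) (n + 2)) z *
      P.pull (forget X (n + 1) (n + 2)) u) := by
    unfold ins
    rw [Finset.sum_range_succ, map_add, map_sum]
  rw [h3, h1]
  refine (add_comm _ _).trans ?_
  exact congrArg₂ (fun a b => a + b) rfl (Finset.sum_congr rfl h2)

lemma cl_congr {x : P.H X} (n : ℕ) {a b : P.H (X.selfProd (n + 1))} (h : a = b) :
    cl P x n a = cl P x n b := by rw [h]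

section Subspaces

variable {P} {x z : P.H X} (N : ∀ n, Submodule Ω (P.H (X.selfProd n)))

lemma smul_cancel {V : Type w} [AddCommGroup V] [Module Ω V] [CharZero Ω] (M : Submodule Ω V)
    (c : ℕ) {u : V} (h : ((c + 1 : ℕ) : Ω) • u ∈ M) : u ∈ M := by
  have h4 := Submodule.smul_mem _ (((c + 1 : ℕ) : Ω)⁻¹) h
  rwa [smul_smul, inv_mul_cancel₀ (Nat.cast_ne_zero.mpr (by omega)), one_smul] at h4

lemma base_step [CharZero Ω] (M : Submodule Ω (P.H X)) (hzx : P.tr X (z * x) = 1)
    (hN : ∀ u ∈ M, P.tr X (u * x) = 0) (c : ℕ) (u : P.H X)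
    (hu : ((c + 1 : ℕ) : Ω) • u + P.tr X (u * x) • z ∈ M) : u ∈ M := by
  have h1 := hN _ hu
  have h2 : P.tr X ((((c + 1 : ℕ) : Ω) • u + P.tr X (u * x) • z : P.H X) * x) =
      ((c + 2 : ℕ) : Ω) * P.tr X (u * x) := by
    rw [add_mul, smul_mul_assoc, smul_mul_assoc, map_add, map_smul, map_smul, hzx, smul_eq_mul,
      smul_eq_mul]
    push_cast
    ring
  rw [h2] at h1
  have h3 : P.tr X (u * x) = 0 :=
    (mul_eq_zero.mp h1).resolve_left (Nat.cast_ne_zero.mpr (by omega))
  rw [h3, zero_smul, add_zero] at hu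
  exact smul_cancel M c hu

lemma base_step' [CharZero Ω] (M : Submodule Ω (P.H X)) (hzx : P.tr X (z * x) = 1)
    (hN : ∀ u ∈ M, P.tr X (u * x) = 0) (c : ℕ) (u t : P.H X)
    (ht : t = P.tr X (z * x) • u + P.tr X (u * x) • z)
    (hu : (c : Ω) • u + t ∈ M) : u ∈ M := by
  refine base_step M hzx hN c u ?_
  have h5 : ((c + 1 : ℕ) : Ω) • u + P.tr X (u * x) • z = (c : Ω) • u + t := by
    rw [ht, hzx, Nat.cast_succ c, add_smul, one_smul, add_assoc]
  rw [h5]
  exact hu

/-- the induction -/
lemma mem_of_add_ins_mem [CharZero Ω] (hz : z ∈ P.ev X) (hzx : P.tr X (z * x) = 1)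
    (hN : ∀ u : P.H X, u ∈ N 0 → P.tr X (u * x) = 0)
    (hC : ∀ n, ∀ u ∈ N (n + 1), cl P x n u ∈ N n)
    (hI : ∀ n, ∀ u ∈ N n, ins P X n z u ∈ N (n + 1)) (n c : ℕ) (u : P.H (X.selfProd (n + 1)))
    (hu : ((c + 1 : ℕ) : Ω) • u + ins P X n z (cl P x n u) ∈ N (n + 1)) : u ∈ N (n + 1) := by
  have fin : ∀ (n c : ℕ) (u : P.H (X.selfProd (n + 1))), cl P x n u ∈ N n →
      ((c + 1 : ℕ) : Ω) • u + ins P X n z (cl P x n u) ∈ N (n + 1) → u ∈ N (n + 1) := by
    intro n c u hv hu
    have h3 := Submodule.sub_mem _ hu (hI n _ hv)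
    rw [add_sub_cancel_right] at h3
    exact smul_cancel _ c h3
  induction n generalizing c with
  | zero =>
    refine fin 0 c u ?_ hu
    have h1 := hC 0 _ hu
    rw [map_add, map_smul] at h1
    exact base_step' (N 0) hzx hN (c + 1) (cl P x 0 u) _ (cl_ins_zero P (x := x) hz _) h1
  | succ n ih =>
    refine fin (n + 1) c u ?_ hu
    have h1 := hC (n + 1) _ hu
    rw [map_add, map_smul, cl_ins_succ P hz n, hzx, ← add_assoc, ← add_smul] at h1
    refine ih (c + 1) _ ?_
    rw [Nat.cast_succ (c + 1)]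
    exact h1

/-- insertion is injective modulo `N` -/
theorem mem_of_ins_mem [CharZero Ω] (hz : z ∈ P.ev X) (hzx : P.tr X (z * x) = 1)
    (hN : ∀ u : P.H X, u ∈ N 0 → P.tr X (u * x) = 0)
    (hC : ∀ n, ∀ u ∈ N (n + 1), cl P x n u ∈ N n)
    (hI : ∀ n, ∀ u ∈ N n, ins P X n z u ∈ N (n + 1)) (n : ℕ) (u : P.H (X.selfProd n))
    (hu : ins P X n z u ∈ N (n + 1)) : u ∈ N n := by
  have h2 := hC n _ hu
  cases n with
  | zero =>
    refine base_step' (N 0) hzx hN 0 u _ (cl_ins_zero P (x := x) hz _) ?_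
    rw [Nat.cast_zero, zero_smul, zero_add]
    exact h2
  | succ n =>
    refine mem_of_add_ins_mem N hz hzx hN hC hI n 0 u ?_
    rw [cl_ins_succ P hz n, hzx] at h2
    rw [zero_add, Nat.cast_one]
    exact h2

end Subspaces

lemma ins_add (n : ℕ) (z : P.H X) (u v : P.H (X.selfProd n)) :
    ins P X n z (u + v) = ins P X n z u + ins P X n z v := by
  unfold ins
  rw [← Finset.sum_add_distrib]
  refine Finset.sum_congr rfl fun i _ => ?_
  rw [map_add, mul_add]

lemma ins_smul (n : ℕ) (z : P.H X) (c : Ω) (u : P.H (X.selfProd n)) :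
    ins P X n z (c • u) = c • ins P X n z u := by
  unfold ins
  rw [Finset.smul_sum]
  refine Finset.sum_congr rfl fun i _ => ?_
  rw [map_smul, mul_smul_comm]

/-- insertion as a linear map -/
noncomputable def insL (n : ℕ) (z : P.H X) :
    P.H (X.selfProd n) →ₗ[Ω] P.H (X.selfProd (n + 1)) where
  toFun := ins P X n z
  map_add' := ins_add P n z
  map_smul' := ins_smul P n z

lemma insL_apply (n : ℕ) (z : P.H X) (u : P.H (X.selfProd n)) :
    insL P n z u = ins P X n z u := rfl

/-- insertion of a non-zero even class is injective -/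
theorem insL_injective [CharZero Ω] {z : P.H X} (hz : z ∈ P.ev X) (hz0 : z ≠ 0) (n : ℕ) :
    Function.Injective (insL P (X := X) n z) := by
  obtain ⟨y, hy⟩ : ∃ y, P.tr X (z * y) ≠ 0 := by
    by_contra hcon
    push Not at hcon
    exact hz0 (P.nondeg X z hcon)
  have hzx : P.tr X (z * ((P.tr X (z * y))⁻¹ • y)) = 1 := by
    rw [mul_smul_comm, map_smul, smul_eq_mul, inv_mul_cancel₀ hy]
  rw [← LinearMap.ker_eq_bot, LinearMap.ker_eq_bot']
  intro u hu
  have := mem_of_ins_mem (P := P) (X := X) (x := (P.tr X (z * y))⁻¹ • y) (fun n => ⊥) hz hzx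
    (fun u hu => by
      have hu' : u = 0 := (Submodule.mem_bot Ω).mp hu
      rw [hu', zero_mul, map_zero])
    (fun n u hu => by
      rw [Submodule.mem_bot] at hu ⊢
      rw [hu, map_zero])
    (fun n u hu => by
      rw [Submodule.mem_bot] at hu ⊢
      rw [hu]
      exact map_zero (insL P n z)) n u
    (by rw [Submodule.mem_bot]; exact hu)
  rwa [Submodule.mem_bot] at this

lemma ins_mem_alg {n : ℕ} {z : P.H X} {u : P.H (X.selfProd n)} (hz : z ∈ P.alg X)
    (hu : u ∈ P.alg (X.selfProd n)) : ins P X n z u ∈ P.alg (X.selfProd (n + 1)) :=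
  Submodule.sum_mem _ fun i _ => P.mul_mem _ _ _ (P.pull_mem _ _ hz) (P.pull_mem _ _ hu)

/-- insertion of a numerically trivial class gives a numerically trivial class -/
lemma ins_rad {n : ℕ} {z : P.H X} {u : P.H (X.selfProd n)} (hz : P.rad X z)
    (hu : u ∈ P.alg (X.selfProd n)) : P.rad (X.selfProd (n + 1)) (ins P X n z u) := by
  refine ⟨ins_mem_alg P hz.1 hu, fun a ha => ?_⟩
  unfold ins
  rw [Finset.sum_mul, map_sum]
  exact Finset.sum_eq_zero fun _ _ => (rad_mul (rad_pull _ hz) (P.pull_mem _ _ hu)).2 a ha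

/-- insertion in a numerically trivial class gives a numerically trivial class -/
lemma ins_rad' {n : ℕ} {z : P.H X} {u : P.H (X.selfProd n)} (hz : z ∈ P.alg X)
    (hu : P.rad (X.selfProd n) u) : P.rad (X.selfProd (n + 1)) (ins P X n z u) := by
  refine ⟨ins_mem_alg P hz hu.1, fun a ha => ?_⟩
  unfold ins
  rw [Finset.sum_mul, map_sum]
  refine Finset.sum_eq_zero fun i _ => ?_
  rw [P.ev_comm _ _ _ (P.pull_ev _ _ (P.alg_le_ev X hz))]
  exact (rad_mul (rad_pull _ hu) (P.pull_mem _ _ hz)).2 a ha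

lemma cl_mem_alg {n : ℕ} {x : P.H X} {u : P.H (X.selfProd (n + 1))} (hx : x ∈ P.alg X)
    (hu : u ∈ P.alg (X.selfProd (n + 1))) : cl P x n u ∈ P.alg (X.selfProd n) :=
  pushF_mem _ (P.mul_mem _ _ _ hu (P.pull_mem _ _ hx))

lemma cl_rad {n : ℕ} {x : P.H X} {u : P.H (X.selfProd (n + 1))} (hx : x ∈ P.alg X)
    (hu : P.rad (X.selfProd (n + 1)) u) : P.rad (X.selfProd n) (cl P x n u) :=
  contr_rad hx hu

end Pool.Agent.Helper59.ZO
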