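import Mathlib
import Pool.Agent.Helper59.ZO.Core
import Pool.Agent.Helper10.DegenThm

/-!
# The ranks of the algebraic classes on the symmetric powers
-/

universe u v w t

open CategoryTheory

namespace Pool.Agent.Helper59.ZO

open Pool.Agent.Helper10 SmProjVar SPre

section Lin

variable {F : Type u} {V : Type v} {V' : Type w} [Field F] [AddCommGroup V] [Module F V]
  [AddCommGroup V'] [Module F V'] [Module.Finite F V] [Module.Finite F V']

omit [Module.Finite F V'] in
lemma finrank_map_add (f : V →ₗ[F] V') (A : Submodule F V) :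
    Module.finrank F (A.map f) + Module.finrank F (LinearMap.ker f ⊓ A : Submodule F V) =
      Module.finrank F A := by
  have h := (f.domRestrict A).finrank_range_add_finrank_ker
  have h1 : LinearMap.range (f.domRestrict A) = A.map f := LinearMap.range_domRestrict A f
  have h2 : (LinearMap.ker (f.domRestrict A)).map A.subtype = LinearMap.ker f ⊓ A := by
    ext x
    constructor
    · rintro ⟨y, hy, rfl⟩
      exact ⟨hy, y.2⟩
    · rintro ⟨hx, hxA⟩
      exact ⟨⟨x, hxA⟩, hx, rfl⟩
  have h3 : Module.finrank F (LinearMap.ker f ⊓ A : Submodule F V) =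
      Module.finrank F (LinearMap.ker (f.domRestrict A)) := by
    rw [← h2]
    exact (Submodule.equivMapOfInjective A.subtype A.subtype_injective _).finrank_eq.symm
  rw [h3, ← h1]
  exact h

/-- dimensions of quotients -/
lemma finrank_quot_le (f : V →ₗ[F] V') {A B : Submodule F V} {A' B' : Submodule F V'}
    (hBA : B ≤ A) (hB'A' : B' ≤ A') (hA : ∀ a ∈ A, f a ∈ A') (hB : ∀ a ∈ A, f a ∈ B' → a ∈ B) :
    Module.finrank F A + Module.finrank F B' ≤ Module.finrank F B + Module.finrank F A' := by
  have h1 := Submodule.finrank_sup_add_finrank_inf_eq (A.map f) B'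
  have h2 : Module.finrank F (A.map f ⊔ B' : Submodule F V') ≤ Module.finrank F A' := by
    refine Submodule.finrank_mono (sup_le ?_ hB'A')
    rintro _ ⟨a, ha, rfl⟩
    exact hA a ha
  have h3 : Module.finrank F (A.map f ⊓ B' : Submodule F V') ≤ Module.finrank F (B.map f) := by
    refine Submodule.finrank_mono ?_
    rintro _ ⟨⟨a, ha, rfl⟩, hb⟩
    exact ⟨a, hB a ha hb, rfl⟩
  have h4 := finrank_map_add f A
  have h5 := finrank_map_add f B
  have h6 : Module.finrank F (LinearMap.ker f ⊓ A : Submodule F V) ≤
      Module.finrank F (LinearMap.ker f ⊓ B : Submodule F V) := by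
    refine Submodule.finrank_mono ?_
    rintro a ⟨ha, haA⟩
    refine ⟨ha, hB a haA ?_⟩
    have ha' : f a = 0 := ha
    rw [ha']
    exact Submodule.zero_mem _
  have h7 : Module.finrank F (LinearMap.ker f ⊓ B : Submodule F V) ≤
      Module.finrank F (LinearMap.ker f ⊓ A : Submodule F V) :=
    Submodule.finrank_mono (inf_le_inf le_rfl hBA)
  omega

end Lin

section Rank

variable {k : Type u} [Field k] {K : Type v} [Field K]

variable [CharZero K] (W : WeilCohomology.{u, v, w} k K) (X : SmProjVar k)

/-- symmetric algebraic classes -/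
def symAlg (n : ℕ) : Submodule K (W.H (X.selfProd n)) where
  carrier := {u | u ∈ W.algClasses (X.selfProd n) ∧ SymInvariant W.toCohomologyData X n u}
  zero_mem' := ⟨Submodule.zero_mem _, fun f _ => map_zero (W.pullA f)⟩
  add_mem' := by
    rintro a b ⟨ha, ha'⟩ ⟨hb, hb'⟩
    refine ⟨Submodule.add_mem _ ha hb, fun f hf => ?_⟩
    have h1 : W.pull f (a + b) = W.pull f a + W.pull f b := map_add (W.pullA f) a b
    rw [h1, ha' f hf, hb' f hf]
  smul_mem' := by
    rintro c a ⟨ha, ha'⟩
    refine ⟨Submodule.smul_mem _ _ ha, fun f hf => ?_⟩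
    have h1 : W.pull f (c • a) = c • W.pull f a := map_smul (W.pullA f) c a
    rw [h1, ha' f hf]

/-- symmetric numerically trivial classes -/
def symNull (n : ℕ) : Submodule K (W.H (X.selfProd n)) where
  carrier := {u | u ∈ symAlg W X n ∧
    ∀ v ∈ W.algClasses (X.selfProd n), W.trL (X.selfProd n) (u * v) = 0}
  zero_mem' := ⟨Submodule.zero_mem _, fun v _ => by rw [zero_mul, map_zero]⟩
  add_mem' := by
    rintro a b ⟨ha, ha'⟩ ⟨hb, hb'⟩
    exact ⟨Submodule.add_mem _ ha hb, fun v hv => by
      rw [add_mul, map_add, ha' v hv, hb' v hv, add_zero]⟩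
  smul_mem' := by
    rintro c a ⟨ha, ha'⟩
    exact ⟨Submodule.smul_mem _ _ ha, fun v hv => by
      rw [smul_mul_assoc, map_smul, ha' v hv, smul_zero]⟩

lemma symNull_le (n : ℕ) : symNull W X n ≤ symAlg W X n := fun _ h => h.1

lemma symClasses_eq (n : ℕ) : symClasses W.toCohomologyData X n = symAlg W X n :=
  Submodule.span_eq (symAlg W X n)

lemma symTrivial_eq (n : ℕ) : symTrivial W.toCohomologyData X n = symNull W X n := by
  refine le_antisymm (Submodule.span_le.mpr ?_) ?_
  · rintro u ⟨⟨h1, h2⟩, h3⟩
    exact ⟨⟨h1, h2⟩, h3⟩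
  · rintro u ⟨⟨h1, h2⟩, h3⟩
    exact Submodule.subset_span ⟨⟨h1, h2⟩, h3⟩

lemma homRank_succ (n : ℕ) :
    homRank W.toCohomologyData X (n + 1) = Module.finrank K (symAlg W X n) := by
  rw [← symClasses_eq]
  rfl

lemma numRank_succ (n : ℕ) : numRank W.toCohomologyData X (n + 1) =
    Module.finrank K (symAlg W X n) - Module.finrank K (symNull W X n) := by
  rw [← symClasses_eq, ← symTrivial_eq]
  rfl

lemma numRank_add (n : ℕ) : numRank W.toCohomologyData X (n + 1) +
    Module.finrank K (symNull W X n) = homRank W.toCohomologyData X (n + 1) := by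
  have := Degen.finite_H W (X.selfProd n)
  rw [numRank_succ, homRank_succ]
  exact Nat.sub_add_cancel (Submodule.finrank_mono (symNull_le W X n))

/-- a morphism which permutes the factors of `X ^ 1` is the identity -/
lemma symInvariant_zero (u : W.H X) : SymInvariant W.toCohomologyData X 0 u := by
  rintro f ⟨σ, hσ⟩
  have h1 : f = 𝟙 X.toOver := by
    have := hσ 0
    exact (Category.comp_id f).symm.trans this
  rw [h1]
  exact W.pull_id X u

/-- a non-zero numerically trivial class -/
lemma exists_null {X : SmProjVar k} (hD : ¬ W.StandardD X) : ∃ z : W.H X, z ≠ 0 ∧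
    (base W).rad X z := by
  by_contra hcon
  push Not at hcon
  refine hD ?_
  intro j a b hab
  unfold CohomologyData.HomEquiv
  rw [← sub_eq_zero]
  by_contra hne
  have key : ∀ y ∈ W.algClasses X, W.trL X ((W.cy X j a - W.cy X j b) * y) = 0 := ?_
  · exact hcon _ hne ⟨Submodule.sub_mem _ (W.cy_mem_algClasses X j a)
      (W.cy_mem_algClasses X j b), key⟩
  intro y hy
  unfold CohomologyData.algClasses at hy
  have hzgr : W.cy X j a - W.cy X j b ∈ W.gr X (2 * j) :=
    Submodule.sub_mem _ (W.cycleClasses.cy_mem X j a) (W.cycleClasses.cy_mem X j b)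
  induction hy using Submodule.span_induction with
  | mem y hy =>
    obtain ⟨i, c, rfl⟩ := hy
    by_cases hi : j + i = X.dim
    · rw [sub_mul, map_sub, WeilCohomology.trL_apply, WeilCohomology.trL_apply, W.cycleClasses.tr_cy_mul X j i a c hi,
        W.cycleClasses.tr_cy_mul X j i b c hi, hab i hi c, sub_self]
    · exact W.tr_eq_zero_of_gr X (i := 2 * j + 2 * i) (by omega)
        (W.gr_mul X hzgr (W.cycleClasses.cy_mem X i c))
  | zero => rw [mul_zero, map_zero]
  | add a b _ _ ha hb => rw [mul_add, map_add, ha, hb, add_zero]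
  | smul a b _ hb => rw [mul_smul_comm, map_smul, hb, smul_zero]

section Main

variable {W X}

/-- the invariance of insertions -/
def InsInv (W : WeilCohomology.{u, v, w} k K) (X : SmProjVar k) : Prop :=
  ∀ (n : ℕ) (z : W.H X) (u : W.H (X.selfProd n)), SymInvariant W.toCohomologyData X n u →
    SymInvariant W.toCohomologyData X (n + 1) (ins (base W) X n z u)

/-- the invariance of contractions -/
def ClInv (W : WeilCohomology.{u, v, w} k K) (X : SmProjVar k) : Prop :=
  ∀ (n : ℕ) (x : W.H X) (u : W.H (X.selfProd (n + 1))),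
    SymInvariant W.toCohomologyData X (n + 1) u →
    SymInvariant W.toCohomologyData X n (cl (base W) x n u)

/-- If D fails for `X`, the numerically trivial classes on `Sym ^ (m + 1) X` contain a copy of all
algebraic classes on `Sym ^ m X`. -/
theorem homRank_add_numRank_le (hI : InsInv W X) (hD : ¬ W.StandardD X) (m : ℕ) :
    homRank W.toCohomologyData X m + numRank W.toCohomologyData X (m + 1) ≤
      homRank W.toCohomologyData X (m + 1) := by
  obtain ⟨z, hz0, hz⟩ := exists_null W hD
  have hfin := fun n => Degen.finite_H W (X.selfProd n)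
  have h1 := numRank_add W X m
  suffices h : homRank W.toCohomologyData X m ≤ Module.finrank K (symNull W X m) by omega
  cases m with
  | zero =>
    have h2 : symNull W X 0 ≠ ⊥ := by
      intro h
      have h3 : (z : W.H X) ∈ symNull W X 0 :=
        ⟨⟨hz.1, symInvariant_zero W X z⟩, fun v hv => hz.2 v hv⟩
      rw [h] at h3
      exact hz0 ((Submodule.mem_bot K).mp h3)
    change 1 ≤ _
    rw [Nat.one_le_iff_ne_zero]
    intro h3
    exact h2 (Submodule.finrank_eq_zero.mp h3)
  | succ n =>
    rw [homRank_succ]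
    have h2 : (symAlg W X n).map (insL (base W) (X := X) n z) ≤ symNull W X (n + 1) := by
      rintro _ ⟨u, ⟨hu, hu'⟩, rfl⟩
      have h3 := ins_rad (base W) (n := n) hz (show u ∈ (base W).alg (X.selfProd n) from hu)
      exact ⟨⟨h3.1, hI n z u hu'⟩, fun v hv => h3.2 v hv⟩
    have h3 : Module.finrank K ((symAlg W X n).map (insL (base W) (X := X) n z)) =
        Module.finrank K (symAlg W X n) :=
      (Submodule.equivMapOfInjective _
        (insL_injective (base W) ((base W).alg_le_ev X hz.1) hz0 n) _).finrank_eq.symm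
    rw [← h3]
    exact Submodule.finrank_mono h2

/-- If D fails for `X`, the sum of the numerical ranks is at most the homological rank. -/
theorem sum_numRank_le (hI : InsInv W X) (hD : ¬ W.StandardD X) (m : ℕ) :
    ∑ i ∈ Finset.range (m + 1), numRank W.toCohomologyData X i ≤
      homRank W.toCohomologyData X m := by
  induction m with
  | zero => rw [Finset.sum_range_one]; exact le_rfl
  | succ m ih =>
    rw [Finset.sum_range_succ]
    exact (Nat.add_le_add_right ih _).trans (homRank_add_numRank_le hI hD m)

/-- the numerical rank does not decrease -/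
theorem numRank_le_succ (hI : InsInv W X) (hC : ClInv W X) {p : W.H X}
    (hp : p ∈ W.algClasses X) (hp1 : W.trL X p = 1) (m : ℕ) :
    numRank W.toCohomologyData X m ≤ numRank W.toCohomologyData X (m + 1) := by
  have hfin := fun n => Degen.finite_H W (X.selfProd n)
  cases m with
  | zero =>
    -- the class `1` is not numerically trivial
    have h1 := numRank_add W X 0
    rw [homRank_succ] at h1
    have h2 : symNull W X 0 < symAlg W X 0 := by
      refine lt_of_le_of_ne (symNull_le W X 0) fun h => ?_
      have h3 : (1 : W.H X) ∈ symAlg W X 0 :=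
        ⟨W.one_mem_algClasses X, symInvariant_zero W X 1⟩
      rw [← h] at h3
      have h4 : W.trL X (1 * p) = 0 := h3.2 p hp
      rw [one_mul, hp1] at h4
      exact one_ne_zero h4
    have h3 := Submodule.finrank_lt_finrank_of_lt h2
    change 1 ≤ _
    omega
  | succ n =>
    have h1 := numRank_add W X n
    have h2 := numRank_add W X (n + 1)
    rw [homRank_succ] at h1 h2
    let f : W.H (X.selfProd n) →ₗ[K] W.H (X.selfProd (n + 1)) := insL (base W) (X := X) n 1
    have h3 := finrank_quot_le f (symNull_le W X n) (symNull_le W X (n + 1)) ?_ ?_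
    · omega
    · rintro u ⟨hu, hu'⟩
      exact ⟨ins_mem_alg (base W) ((base W).one_mem X) hu, hI n 1 u hu'⟩
    · intro u hu hu'
      refine mem_of_ins_mem (P := base W) (X := X) (x := p) (z := 1) (symNull W X)
        ((base W).alg_le_ev X ((base W).one_mem X)) ?_ ?_ ?_ ?_ n u hu'
      · rw [one_mul]; exact hp1
      · intro u hu
        exact hu.2 p hp
      · rintro n u ⟨⟨h1, h2⟩, h3⟩
        have h4 := cl_rad (base W) (x := p) hp ⟨h1, h3⟩
        exact ⟨⟨h4.1, hC n p u h2⟩, h4.2⟩
      · rintro n u ⟨⟨h1, h2⟩, h3⟩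
        have h4 := ins_rad' (base W) ((base W).one_mem X) ⟨h1, h3⟩
        exact ⟨⟨h4.1, hI n 1 u h2⟩, h4.2⟩

/-- Under D the sum of the numerical ranks exceeds the homological rank already for `m = 1`. -/
theorem lt_of_standardD (hD : W.StandardD X) :
    homRank W.toCohomologyData X 1 <
      ∑ i ∈ Finset.range (1 + 1), numRank W.toCohomologyData X i := by
  have h1 := numRank_add W X 0
  have h2 : symNull W X 0 = ⊥ := by
    rw [eq_bot_iff]
    rintro u ⟨⟨h1, _⟩, h3⟩
    rw [Submodule.mem_bot]
    exact Degen.eq_zero_of_standardD hD h1 h3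
  rw [h2, finrank_bot, add_zero] at h1
  rw [Finset.sum_range_succ, Finset.sum_range_one, h1]
  exact Nat.lt_add_of_pos_left one_pos

/-- the zero-one law -/
theorem standardD_iff (hI : InsInv W X) :
    W.StandardD X ↔ ∃ m ≥ 1, homRank W.toCohomologyData X m <
      ∑ i ∈ Finset.range (m + 1), numRank W.toCohomologyData X i := by
  refine ⟨fun h => ⟨1, le_rfl, lt_of_standardD h⟩, ?_⟩
  rintro ⟨m, -, hm⟩
  by_contra hD
  exact absurd (sum_numRank_le hI hD m) (not_le.mpr hm)

/-- the numerical rank of `Sym ^ m X` and the homological rank of `Sym ^ (2 m) X` -/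
theorem mul_numRank_le (hI : InsInv W X) (hmon : ∀ m, numRank W.toCohomologyData X m ≤
    numRank W.toCohomologyData X (m + 1)) (hD : ¬ W.StandardD X) (m l : ℕ) :
    (l + 1) * numRank W.toCohomologyData X m ≤ homRank W.toCohomologyData X (m + l) := by
  have hmon' : Monotone (numRank W.toCohomologyData X) := monotone_nat_of_le_succ hmon
  refine le_trans ?_ (sum_numRank_le hI hD (m + l))
  have h1 : ∑ i ∈ Finset.Icc m (m + l), numRank W.toCohomologyData X m ≤
      ∑ i ∈ Finset.range (m + l + 1), numRank W.toCohomologyData X i := by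
    refine (Finset.sum_le_sum fun i hi => hmon' (Finset.mem_Icc.mp hi).1).trans ?_
    refine Finset.sum_le_sum_of_subset fun i hi => ?_
    rw [Finset.mem_range]
    have := (Finset.mem_Icc.mp hi).2
    omega
  refine le_trans (le_of_eq ?_) h1
  rw [Finset.sum_const, Nat.card_Icc, smul_eq_mul]
  congr 1
  omega

end Main

end Rank

end Pool.Agent.Helper59.ZO
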