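import Mathlib
import Pool.Agent.Helper59.ZO.Assembly
import Pool.Agent.Helper60.ZO.Cl
import Pool.Agent.Helper11.ZO.Inv
import Pool.Agent.Helper11.FP.St.C3

/-!
# The zero-one law for the standard conjecture D
-/

universe u v w

open CategoryTheory

namespace Pool.Agent.Helper59.ZO

open Pool.Agent.Helper10 SmProjVar

variable {k : Type u} [Field k] {K : Type v} [Field K] [CharZero K]
  (W : WeilCohomology.{u, v, w} k K) (X : SmProjVar k)

lemma insInv : InsInv W X := fun _ z _ hu => symInvariant_ins W z hu

lemma clInv : ClInv W X := fun _ x _ hu => symInvariant_cl W x hu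

/-- an algebraic class of trace one -/
lemma exists_trace_one : ∃ p ∈ W.algClasses X, W.trL X p = 1 := by
  obtain ⟨c, hc⟩ := Pool.Agent.Helper11.FP.exists_point_class W X
  refine ⟨(W.trL X (W.cy X X.dim c))⁻¹ • W.cy X X.dim c,
    Submodule.smul_mem _ _ (W.cy_mem_algClasses X X.dim c), ?_⟩
  rw [map_smul, smul_eq_mul]
  exact inv_mul_cancel₀ hc

/-- the numerical rank of `Sym ^ m X` does not decrease with `m` -/
theorem numRank_monotone : Monotone (numRank W.toCohomologyData X) := by
  obtain ⟨p, hp, hp1⟩ := exists_trace_one W X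
  exact monotone_nat_of_le_succ fun m => numRank_le_succ (insInv W X) (clInv W X) hp hp1 m

/-- The zero-one law: D holds for `X` if and only if for one `m ≥ 1` the numerical ranks of
`Sym ^ i X`, `i ≤ m`, have a sum greater than the homological rank of `Sym ^ m X`; and if D fails
for `X`, then the homological rank of `Sym ^ (m + l) X` is at least `l + 1` times the numerical rank
of `Sym ^ m X`, for all `m` and `l`. -/
theorem zero_one_law :
    (W.StandardD X ↔ ∃ m ≥ 1, homRank W.toCohomologyData X m <
      ∑ i ∈ Finset.range (m + 1), numRank W.toCohomologyData X i) ∧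
    (¬ W.StandardD X → ∀ m l, (l + 1) * numRank W.toCohomologyData X m ≤
      homRank W.toCohomologyData X (m + l)) ∧
    ∀ m, numRank W.toCohomologyData X m ≤ numRank W.toCohomologyData X (m + 1) ∧
      1 ≤ numRank W.toCohomologyData X m := by
  refine ⟨standardD_iff (insInv W X), fun hD m l => mul_numRank_le (insInv W X)
    (fun m => numRank_monotone W X (Nat.le_succ m)) hD m l, fun m =>
    ⟨numRank_monotone W X (Nat.le_succ m), numRank_monotone W X (Nat.zero_le m)⟩⟩

end Pool.Agent.Helper59.ZO
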